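import Pool.Agent.H1.CI.Vec
import Pool.Agent.H1.CI.Cen

/-!
# [CCB GLOBAL Obj] (4.5), (4.6), section 5: the objects and their stabilisers

`st_mem0` (4.6): the stabiliser of the root set of an abelian group with an element of `L`, whose elements are in `L` or have finite order.
`exists_rt0` (4.5): in an increasing sequence of `2 n + 1` such groups, the first of which has an element of `L`, some step does not change
the root set.
-/

set_option autoImplicit false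

namespace Pool.Agent.H1.CI

open Pool.Agent.H98.FJ Pool.Agent.H37.PT Pool.Agent.H1.CG
open scoped Pointwise

variable {G V : Type} [Group G] [MulAction G V] {Hs : Set (Set V)} {n : ℕ} {A : Subgroup G} {L : G → Prop}

/-- two elements with proportional translation vectors have a common power -/
private theorem common {τ : G → Fin (2 * n) → ℤ} (hA : ∀ x ∈ A, ∀ y ∈ A, x * y = y * x)
    (hτ : ∀ x ∈ A, ∀ y ∈ A, τ (x * y) = τ x + τ y) (hk : ∀ x ∈ A, τ x = 0 → IsOfFinOrder x) {a b : G} (ha : a ∈ A) (hb : b ∈ A)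
    (h : τ a = τ b) : ∃ e : ℕ, 0 < e ∧ a ^ e = b ^ e := by
  have h1 : τ (a * b⁻¹) = 0 := by rw [hτ a ha _ (A.inv_mem hb), tau_inv hτ hb, h, add_neg_cancel]
  obtain ⟨e, he, h2⟩ := (isOfFinOrder_iff_pow_eq_one).1 (hk _ (A.mul_mem ha (A.inv_mem hb)) h1)
  refine ⟨e, he, ?_⟩
  have h3 : Commute a b⁻¹ := hA a ha _ (A.inv_mem hb)
  rw [h3.mul_pow, inv_pow, mul_inv_eq_one] at h2
  exact h2

theorem st_mem0 {C : (G : Type) → [Group G] → Prop} (hC : Inherits C) (hS : Sys G Hs n) (hL : Lox0 Hs L) [hne : Nonempty V]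
    (hw : ∀ w ∈ Hs, C (MulAction.stabilizer G w)) (hA : ∀ x ∈ A, ∀ y ∈ A, x * y = y * x)
    (hT : ∀ a ∈ A, ¬ L a → IsOfFinOrder a) {h0 : G} (h0A : h0 ∈ A) (hl0 : L h0) : C (St A) := by
  classical
  obtain ⟨x0⟩ := hne
  have : Nonempty V := ⟨x0⟩
  obtain ⟨τ, hτ, hk', -, hs⟩ := exists_tau0 hS hL x0 hA
  have hk : ∀ x ∈ A, τ x = 0 → IsOfFinOrder x := fun x hx h => hT x hx (hk' x hx h)
  obtain ⟨s, hs⟩ := hs h0 h0A
  have hV : C (Pool.Agent.H76.VC.VCen h0) := vcen hC hS hL hw hl0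
  -- the powers in `A`
  have hpow : ∀ g : St A, ∃ m : ℕ, 0 < m ∧ (g : G) * h0 ^ m * (g : G)⁻¹ ∈ A := by
    intro g
    have h1 : (g : G)⁻¹ * ((g : G) * h0 * (g : G)⁻¹) * (g : G) ∈ Rt A := by
      have e : (g : G)⁻¹ * ((g : G) * h0 * (g : G)⁻¹) * (g : G) = h0 := by group
      rw [e]
      exact ⟨1, one_pos, by rwa [pow_one]⟩
    obtain ⟨m, hm, h2⟩ := (g.2 _).1 h1
    rw [conj_pow] at h2
    exact ⟨m, hm, h2⟩
  choose m hm hmA using hpow
  have key : ∀ g g' : St A, s g = s g' → (g : G)⁻¹ * (g' : G) ∈ Pool.Agent.H76.VC.VCen h0 := by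
    intro g g' hgg
    have e1 := hs g g' hgg (m g) (m g')
    rw [← tau_pow hτ (hmA g), ← tau_pow hτ (hmA g')] at e1
    obtain ⟨e, he, h4⟩ := common hA hτ hk (A.pow_mem (hmA g) _) (A.pow_mem (hmA g') _) e1
    rw [← pow_mul, ← pow_mul, conj_pow, conj_pow, ← pow_mul, ← pow_mul] at h4
    obtain ⟨M, hM⟩ : ∃ M, M = m g * (m g' * e) := ⟨_, rfl⟩
    have hM0 : 0 < M := hM ▸ Nat.mul_pos (hm g) (Nat.mul_pos (hm g') he)
    have hM2 : m g' * (m g * e) = M := by
      rw [hM]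
      ring
    rw [hM2, ← hM] at h4
    refine ⟨(M : ℤ), by exact_mod_cast hM0.ne', ?_⟩
    rw [zpow_natCast]
    have h5 : ((g : G)⁻¹ * (g' : G)) * h0 ^ M * ((g : G)⁻¹ * (g' : G))⁻¹ =
        (g : G)⁻¹ * ((g' : G) * h0 ^ M * (g' : G)⁻¹) * (g : G) := by group
    rw [h5, ← h4]
    group
  have hfi : ((Pool.Agent.H76.VC.VCen h0).subgroupOf (St A)).FiniteIndex := by
    have h3 : Finite (St A ⧸ (Pool.Agent.H76.VC.VCen h0).subgroupOf (St A)) := by
      refine Finite.of_injective (fun q : St A ⧸ (Pool.Agent.H76.VC.VCen h0).subgroupOf (St A) => s q.out) ?_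
      intro q q' hqq
      have h1 := key _ _ hqq
      rw [← QuotientGroup.out_eq' q, ← QuotientGroup.out_eq' q']
      refine (QuotientGroup.eq).2 ?_
      rw [Subgroup.mem_subgroupOf]
      exact h1
    exact Subgroup.finiteIndex_of_finite_quotient
  refine hC.index _ _ hfi ?_
  refine hC.of_injective (H := Pool.Agent.H76.VC.VCen h0)
    { toFun := fun x => ⟨x.1.1, x.2⟩
      map_one' := rfl
      map_mul' := fun _ _ => rfl } ?_ hV
  intro a b hab
  exact Subtype.ext (Subtype.ext (congrArg (fun w : Pool.Agent.H76.VC.VCen h0 => (w : G)) hab))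

theorem exists_rt0 (hS : Sys G Hs n) (hL : Lox0 Hs L) [hne : Nonempty V] (A : ℕ → Subgroup G)
    (hA : ∀ j < 2 * n, A j ≤ A (j + 1)) (hab : ∀ x ∈ A (2 * n), ∀ y ∈ A (2 * n), x * y = y * x)
    (hT : ∀ a ∈ A (2 * n), ¬ L a → IsOfFinOrder a) (hinf : ∃ a ∈ A 0, L a) :
    ∃ j < 2 * n, Rt (A j) = Rt (A (j + 1)) := by
  classical
  have hle : ∀ j, j ≤ 2 * n → ∀ i, i ≤ j → A i ≤ A j := by
    intro j hj i hij
    induction j with
    | zero =>
      have : i = 0 := by omega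
      rw [this]
    | succ j ih =>
      rcases Nat.lt_or_ge i (j + 1) with h | h
      · exact (ih (by omega) (by omega)).trans (hA j (by omega))
      · have : i = j + 1 := by omega
        rw [this]
  obtain ⟨x0⟩ := hne
  obtain ⟨τ, hτ, hk', -⟩ := exists_tau0 hS hL x0 hab
  have hk : ∀ x ∈ A (2 * n), τ x = 0 → IsOfFinOrder x := fun x hx h => hT x hx (hk' x hx h)
  let B : ℕ → Subgroup G := fun j => A (min j (2 * n))
  have hBA : ∀ j, B j ≤ A (2 * n) := fun j => hle (2 * n) le_rfl _ (min_le_right _ _)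
  let W : ℕ → Set (Fin (2 * n) → ℤ) := fun j => τ '' (B j : Set G)
  have hW : ∀ j, W j ⊆ W (j + 1) := by
    intro j
    refine Set.image_mono ?_
    exact hle _ (min_le_right _ _) _ (min_le_min (Nat.le_succ j) le_rfl)
  have hW0 : ∃ v ∈ W 0, v ≠ 0 := by
    obtain ⟨a, ha, hai⟩ := hinf
    have ha' : a ∈ B 0 := by
      show a ∈ A (min 0 (2 * n))
      rwa [Nat.zero_min]
    exact ⟨τ a, ⟨a, ha', rfl⟩, fun h => hL.inf a hai (hk a (hBA 0 ha') h)⟩
  obtain ⟨j, hj, hj2⟩ := exists_rank W hW hW0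
  have hBj : B j = A j := by
    show A (min j (2 * n)) = A j
    rw [min_eq_left hj.le]
  have hBj1 : B (j + 1) = A (j + 1) := by
    show A (min (j + 1) (2 * n)) = A (j + 1)
    rw [min_eq_left (by omega)]
  have hcl : ∀ v ∈ AddSubgroup.closure (W j), ∃ z ∈ A j, τ z = v := by
    intro v hv
    rw [← hBj]
    induction hv using AddSubgroup.closure_induction with
    | mem v hv =>
      obtain ⟨z, hz, rfl⟩ := hv
      exact ⟨z, hz, rfl⟩
    | zero =>
      refine ⟨1, (B j).one_mem, ?_⟩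
      have h := hτ 1 (A (2 * n)).one_mem 1 (A (2 * n)).one_mem
      rw [mul_one] at h
      exact left_eq_add.1 h
    | add x y _ _ hx hy =>
      obtain ⟨a, ha, rfl⟩ := hx
      obtain ⟨b, hb, rfl⟩ := hy
      exact ⟨a * b, (B j).mul_mem ha hb, hτ a (hBA j ha) b (hBA j hb)⟩
    | neg x _ hx =>
      obtain ⟨a, ha, rfl⟩ := hx
      exact ⟨a⁻¹, (B j).inv_mem ha, tau_inv hτ (hBA j ha)⟩
  refine ⟨j, hj, Set.Subset.antisymm ?_ ?_⟩
  · rintro x ⟨m, hm, hx⟩
    exact ⟨m, hm, hA j hj hx⟩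
  · rintro x ⟨m, hm, hx⟩
    have hxB : x ^ m ∈ B (j + 1) := by rwa [hBj1]
    obtain ⟨k, hk0, h1⟩ := hj2 (τ (x ^ m)) (AddSubgroup.subset_closure ⟨x ^ m, hxB, rfl⟩)
    obtain ⟨z, hz, h2⟩ := hcl _ h1
    have hxA : x ^ m ∈ A (2 * n) := hBA _ hxB
    have hzA : z ∈ A (2 * n) := hle (2 * n) le_rfl j hj.le hz
    rw [← tau_pow hτ hxA] at h2
    obtain ⟨e, he, h3⟩ := common hab hτ hk ((A (2 * n)).pow_mem hxA k) hzA h2.symm
    refine ⟨m * k * e, Nat.mul_pos (Nat.mul_pos hm hk0) he, ?_⟩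
    rw [pow_mul, pow_mul, h3]
    exact (A j).pow_mem hz e

end Pool.Agent.H1.CI
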