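import Pool.Agent.H37.CD.GloI
import Pool.Agent.H1.CI.Obj

/-!
# THEOREM CCB, chapter GLOBAL: interface

The statements of `Pool.Agent.H37.CD.GloI` without acylindricity. `exists_tau3`: the translation vectors with respect to a vertex `y`: additive on the
commutative group `A`, the entries are at most `ds y (x • y)`, and the elements of `A` with the vector `0` are not loxodromic.
`exists_rt3`, `st_mem_class3`: for commutative groups whose elements are loxodromic or have finite order.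
-/

set_option autoImplicit false

namespace Pool.Agent.H1.CI

open scoped Pointwise
open Pool.Agent.H98.FJ Pool.Agent.H37.PT Pool.Agent.H37.CC Pool.Agent.H37.CD

variable {G H : Type} [Group G] [PartialOrder H] [Bas H] [MulAction G H] [BAct G H]

/-- the half-spaces between two vertices, as sets of vertices -/
private theorem ncard_hat (x y : Vtx H) :
    {h ∈ Set.range (Pool.Agent.H1.CG.hat : H → Set (Vtx H)) | x ∈ h ∧ y ∉ h} = Pool.Agent.H1.CG.hat '' (x.U \ y.U) := by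
  ext w
  constructor
  · rintro ⟨⟨h, rfl⟩, h4, h5⟩
    exact ⟨h, ⟨h4, h5⟩, rfl⟩
  · rintro ⟨h, ⟨h4, h5⟩, rfl⟩
    exact ⟨⟨h, rfl⟩, h4, h5⟩

/-- the loxodromic elements -/
theorem lox0 {n : ℕ} (hd : Dim H n) :
    Lox0 (Set.range (Pool.Agent.H1.CG.hat : H → Set (Vtx H))) (fun g : G => Lx H g) := by
  constructor
  · intro z hz
    refine Pool.Agent.H1.CH.skewer_ub (Pool.Agent.H1.CG.sys G hd) (x := bs) fun D => ?_
    by_contra hcon
    push Not at hcon
    refine hz ⟨D, ?_⟩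
    rintro _ ⟨i, rfl⟩
    have h1 := hcon i
    rw [ncard_hat, Set.ncard_image_of_injective _ (fun h k e => Pool.Agent.H1.CG.hat_inj G e)] at h1
    rw [Pool.Agent.H1.CG.ds_comm']
    exact h1
  · intro z m hm hz
    exact (lx_pow hm).2 hz
  · intro z hz hf
    obtain ⟨m, hm, h1⟩ := isOfFinOrder_iff_pow_eq_one.1 hf
    have h2 := (lx_pow (H := H) hm).2 hz
    rw [h1] at h2
    refine h2 ⟨0, ?_⟩
    rintro _ ⟨i, rfl⟩
    show ds (bs : Vtx H) ((1 : G) ^ i • bs) ≤ 0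
    rw [one_zpow, one_smul]
    unfold ds
    simp

theorem exists_tau3 {n : ℕ} (hd : Dim H n) (y : Vtx H) (A : Subgroup G) (hab : ∀ x ∈ A, ∀ z ∈ A, x * z = z * x) :
    ∃ τ : G → Fin (2 * n) → ℤ, (∀ x ∈ A, ∀ z ∈ A, τ (x * z) = τ x + τ z) ∧ (∀ x ∈ A, τ x = 0 → ¬ Lx H x) ∧
      ∀ x : G, ∀ i, |τ x i| ≤ (ds y (x • y) : ℤ) := by
  obtain ⟨τ, h1, h2, h3, -⟩ := exists_tau0 (Pool.Agent.H1.CG.sys G hd) (lox0 hd) y hab
  refine ⟨τ, h1, h2, fun x i => h3 x (ds y (x • y)) ?_ ?_ i⟩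
  · rw [ncard_hat, Set.ncard_image_of_injective _ (fun h k e => Pool.Agent.H1.CG.hat_inj G e)]
    rw [Pool.Agent.H1.CG.ds_comm']
    exact le_rfl
  · rw [ncard_hat, Set.ncard_image_of_injective _ (fun h k e => Pool.Agent.H1.CG.hat_inj G e)]
    exact le_rfl

theorem exists_rt3 {n : ℕ} (hd : Dim H n) (A : ℕ → Subgroup G) (hA : ∀ j < 2 * n, A j ≤ A (j + 1))
    (hab : ∀ x ∈ A (2 * n), ∀ y ∈ A (2 * n), x * y = y * x) (hT : ∀ a ∈ A (2 * n), ¬ Lx H a → IsOfFinOrder a)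
    (hinf : ∃ a ∈ A 0, Lx H a) : ∃ j < 2 * n, Rt (A j) = Rt (A (j + 1)) := by
  have : Nonempty (Vtx H) := ⟨bs⟩
  exact exists_rt0 (Pool.Agent.H1.CG.sys G hd) (lox0 hd) A hA hab hT hinf

theorem st_mem_class3 {C : (G : Type) → [Group G] → Prop} (hC : Inherits C) {n : ℕ} (hd : Dim H n)
    (hst : ∀ w : H, C (MulAction.stabilizer G w)) (A : Subgroup G) (hab : ∀ x ∈ A, ∀ y ∈ A, x * y = y * x)
    (hT : ∀ a ∈ A, ¬ Lx H a → IsOfFinOrder a) (hinf : ∃ a ∈ A, Lx H a) : C (St A) := by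
  have : Nonempty (Vtx H) := ⟨bs⟩
  obtain ⟨h0, h0A, hi⟩ := hinf
  refine st_mem0 hC (Pool.Agent.H1.CG.sys G hd) (lox0 hd) ?_ hab hT h0A hi
  rintro _ ⟨h, rfl⟩
  rw [Pool.Agent.H1.CG.stab_hat]
  exact hst h

theorem ds_pow_le (g : G) (y : Vtx H) (m : ℕ) : ds y (g ^ m • y) ≤ m * ds y (g • y) := by
  induction m with
  | zero =>
    rw [pow_zero, one_smul]
    unfold ds
    simp
  | succ m ih =>
    have h1 := Pool.Agent.H1.CG.ds_tri' y (g ^ m • y) (g ^ (m + 1) • y)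
    have h2 : ds (g ^ m • y) (g ^ (m + 1) • y) = ds y (g • y) := by
      rw [pow_succ, mul_smul]
      exact Pool.Agent.H1.CG.ds_smul' G _ _ _
    rw [h2] at h1
    rw [add_mul, one_mul]
    omega

end Pool.Agent.H1.CI
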